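import Mathlib
import Pool.Agent.H49.RP.Stmt

/-!
Restricted projections under analytic families of linear maps: in every fixed dimension `n`, Q1 is
equivalent to its critical case, the families `P_t : ℝⁿ → ℝᵐ` with `f(m) = m`, for sets of dimension
more than `m - 1`.
-/

namespace Pool.Agent.Results.MP_aa7542_an.FixedDimension

open Set MeasureTheory
open scoped ENNReal

/-- The Euclidean space `ℝⁿ`. -/
abbrev E (n : ℕ) := EuclideanSpace ℝ (Fin n)

/-- An analytic family of linear maps `P_t : ℝⁿ → ℝᵐ`, `t ∈ [0, 1]`: the matrix entries are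
real-analytic functions of `t` in a neighbourhood of `[0, 1]`. -/
def IsAnalyticFamily {n m : ℕ} (P : ℝ → E n →ₗ[ℝ] E m) : Prop :=
  ∀ i j, AnalyticOnNhd ℝ (fun t => P t (EuclideanSpace.single j 1) i) (Icc 0 1)

/-- Every linear subspace `V` of dimension `x` satisfies `dim P_t(V) ≥ k` for all but finitely many
`t ∈ [0, 1]`. -/
def ImageAtLeast {n m : ℕ} (P : ℝ → E n →ₗ[ℝ] E m) (x k : ℕ) : Prop :=
  ∀ V : Submodule ℝ (E n), Module.finrank ℝ V = x →
    {t ∈ Icc (0 : ℝ) 1 | ¬ k ≤ Module.finrank ℝ (V.map (P t))}.Finite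

/-- The value of `f` at an integer `x`: the largest `k` with `ImageAtLeast P x k`. -/
noncomputable def intValue {n m : ℕ} (P : ℝ → E n →ₗ[ℝ] E m) (x : ℕ) : ℕ :=
  sSup {k | ImageAtLeast P x k}

/-- The function `f` attached to the family: linear interpolation of the values at integers. -/
noncomputable def f {n m : ℕ} (P : ℝ → E n →ₗ[ℝ] E m) (x : ℝ) : ℝ :=
  (1 - Int.fract x) * intValue P ⌊x⌋₊ + Int.fract x * intValue P (⌊x⌋₊ + 1)

/-- The assertion of Q1 for all families on `ℝⁿ`: `dim P_t(A) ≥ f(dim A)` for almost every `t`. -/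
def Q1 (n : ℕ) : Prop :=
  ∀ m : ℕ, 0 < m → ∀ P : ℝ → E n →ₗ[ℝ] E m, IsAnalyticFamily P → ∀ A : Set (E n), MeasurableSet A →
    ∀ᵐ t ∂(volume.restrict (Icc (0 : ℝ) 1)), ENNReal.ofReal (f P (dimH A).toReal) ≤ dimH (P t '' A)

/-- The critical case on `ℝⁿ`: families to `ℝᵐ` with `f(m) = m` (so that `f(x) = min(x, m)`) and
Borel sets of dimension more than `m - 1`. -/
def Critical (n : ℕ) : Prop :=
  ∀ m : ℕ, 0 < m → ∀ P : ℝ → E n →ₗ[ℝ] E m, IsAnalyticFamily P → ImageAtLeast P m m →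
    ∀ A : Set (E n), MeasurableSet A → (m : ℝ≥0∞) < dimH A + 1 →
      ∀ᵐ t ∂(volume.restrict (Icc (0 : ℝ) 1)), dimH (P t '' A) = min (dimH A) m

/-- For every `n`, the assertion of Q1 for all analytic families on `ℝⁿ` is equivalent to its
critical case on the same `ℝⁿ`. -/
theorem result (n : ℕ) : Q1 n ↔ Critical n :=
  ⟨Pool.Agent.H49.RP.critical_of_q1, Pool.Agent.H49.RP.q1_of_critical⟩

end Pool.Agent.Results.MP_aa7542_an.FixedDimension
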